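import Mathlib
import Pool.Agent.R332.Forest

/-!
# Rotated copies of the triangular lattice are never uniformly discrete dense forests
-/

namespace Pool.Agent.Results.MP_b83ca4_nt.NeverBoth

/-- the lattice spanned by `1` and `(1 + i √3) / 2` in the plane `ℂ` -/
def Lam : Set ℂ :=
  {z | ∃ a b : ℤ, z = (a : ℂ) + (b : ℂ) * (1 / 2 + (Real.sqrt 3 / 2 : ℝ) * Complex.I)}

/-- the union of the `k` copies `exp(i θ_j) Λ + x_j` -/
def TBG (k : ℕ) (x : Fin k → ℂ) (θ : Fin k → ℝ) : Set ℂ :=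
  {p | ∃ j : Fin k, ∃ l ∈ Lam, p = Complex.exp (θ j * Complex.I) * l + x j}

/-- for every `ε > 0` there is `V > 0` such that every segment of length `V` has some point of `D`
at distance less than `ε` from it -/
def IsDenseForest (D : Set ℂ) : Prop :=
  ∀ ε : ℝ, 0 < ε → ∃ V : ℝ, 0 < V ∧ ∀ a b : ℂ, dist a b = V →
    ∃ p ∈ segment ℝ a b, ∃ d ∈ D, dist p d < ε

/-- distinct points of `D` are at distance at least `r` -/
def IsUniformlyDiscrete (D : Set ℂ) : Prop :=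
  ∃ r : ℝ, 0 < r ∧ ∀ p ∈ D, ∀ q ∈ D, p ≠ q → r ≤ dist p q

theorem lam_eq : Lam = R332.Forest.lat := by
  have hw : (1 / 2 + (Real.sqrt 3 / 2 : ℝ) * Complex.I : ℂ) = R332.Forest.w := by
    apply Complex.ext
    · simp [R332.Forest.w_re]
    · simp [R332.Forest.w_im]
  unfold Lam R332.Forest.lat
  rw [hw]

theorem tbg_eq (k : ℕ) (x : Fin k → ℂ) (θ : Fin k → ℝ) :
    TBG k x θ = ⋃ j, R332.Forest.copy (Complex.exp (θ j * Complex.I)) (x j) := by
  ext p
  rw [Set.mem_iUnion]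
  unfold TBG R332.Forest.copy
  rw [lam_eq]
  rfl

theorem result (k : ℕ) (x : Fin k → ℂ) (θ : Fin k → ℝ) :
    ¬ (IsUniformlyDiscrete (TBG k x θ) ∧ IsDenseForest (TBG k x θ)) := by
  rintro ⟨h1, h2⟩
  rw [tbg_eq] at h1 h2
  refine R332.Forest.never_both (fun j => Complex.exp (θ j * Complex.I)) x
    (fun j => Complex.norm_exp_ofReal_mul_I _) h1 ?_
  intro ε hε
  obtain ⟨V, hV, h⟩ := h2 ε hε
  refine ⟨V, hV, fun a b hab => ?_⟩
  obtain ⟨p, hp, d, hd, hpd⟩ := h a b hab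
  exact ⟨p, hp, d, hd, by rwa [dist_comm]⟩

end Pool.Agent.Results.MP_b83ca4_nt.NeverBoth
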