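import Mathlib
import Pool.Agent.R332.Forest

/-!
# Two rotated copies of the triangular lattice suffice for a dense forest
-/

namespace Pool.Agent.Results.MP_b83ca4_nt.SmallestNumber

/-- the lattice spanned by `1` and `(1 + i √3) / 2` in the plane `ℂ` -/
def Lam : Set ℂ :=
  {z | ∃ a b : ℤ, z = (a : ℂ) + (b : ℂ) * (1 / 2 + (Real.sqrt 3 / 2 : ℝ) * Complex.I)}

/-- the union of the `k` copies `exp(i θ_j) Λ + x_j` -/
def TBG (k : ℕ) (x : Fin k → ℂ) (θ : Fin k → ℝ) : Set ℂ :=
  {p | ∃ j : Fin k, ∃ l ∈ Lam, p = Complex.exp (θ j * Complex.I) * l + x j}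

/-- for every `ε > 0` there is `V > 0` such that every segment of length `V` has some point of `D`
at distance less than `ε` from it -/
def IsDenseForest (D : Set ℂ) : Prop :=
  ∀ ε : ℝ, 0 < ε → ∃ V : ℝ, 0 < V ∧ ∀ a b : ℂ, dist a b = V →
    ∃ p ∈ segment ℝ a b, ∃ d ∈ D, dist p d < ε

theorem lam_eq : Lam = R332.Forest.lat := by
  have hw : (1 / 2 + (Real.sqrt 3 / 2 : ℝ) * Complex.I : ℂ) = R332.Forest.w := by
    apply Complex.ext
    · simp [R332.Forest.w_re]
    · simp [R332.Forest.w_im]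
  unfold Lam R332.Forest.lat
  rw [hw]

theorem tbg_eq (k : ℕ) (x : Fin k → ℂ) (θ : Fin k → ℝ) :
    TBG k x θ = ⋃ j, R332.Forest.copy (Complex.exp (θ j * Complex.I)) (x j) := by
  ext p
  rw [Set.mem_iUnion]
  unfold TBG R332.Forest.copy
  rw [lam_eq]
  rfl

theorem forest_iff (D : Set ℂ) : IsDenseForest D ↔ R332.Forest.DenseForest D := by
  constructor
  · intro h2 ε hε
    obtain ⟨V, hV, h⟩ := h2 ε hε
    refine ⟨V, hV, fun a b hab => ?_⟩
    obtain ⟨p, hp, d, hd, hpd⟩ := h a b hab
    exact ⟨p, hp, d, hd, by rwa [dist_comm]⟩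
  · intro h2 ε hε
    obtain ⟨V, hV, h⟩ := h2 ε hε
    refine ⟨V, hV, fun a b hab => ?_⟩
    obtain ⟨p, hp, d, hd, hpd⟩ := h a b hab
    exact ⟨p, hp, d, hd, by rwa [dist_comm]⟩

/-- there is an angle without a common rational direction -/
theorem exists_angle : ∃ t : ℝ, ¬ R332.Forest.Rational2 (Complex.exp (t * Complex.I)) := by
  by_contra hcon
  push Not at hcon
  have h1 : (Set.Ioc (-Real.pi) Real.pi) ⊆ (fun t : ℝ => Complex.exp (t * Complex.I)) ⁻¹'
      {ζ : ℂ | ‖ζ‖ = 1 ∧ R332.Forest.Rational2 ζ} := by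
    intro t _
    exact ⟨Complex.norm_exp_ofReal_mul_I _, hcon t⟩
  have h2 : Set.InjOn (fun t : ℝ => Complex.exp (t * Complex.I))
      (Set.Ioc (-Real.pi) Real.pi) := by
    intro s hs t ht hst
    have h3 := congrArg Complex.arg hst
    simp only at h3
    rw [Complex.arg_exp_mul_I, Complex.arg_exp_mul_I] at h3
    rw [(toIocMod_eq_self Real.two_pi_pos).2, (toIocMod_eq_self Real.two_pi_pos).2] at h3
    · exact h3
    · constructor
      · exact ht.1
      · have := ht.2
        linarith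
    · constructor
      · exact hs.1
      · have := hs.2
        linarith
  have h3 : (Set.Ioc (-Real.pi) Real.pi).Countable := by
    refine Set.countable_of_injective_of_countable_image h2 ?_
    refine Set.Countable.mono ?_ R332.Forest.rational2_countable
    rintro _ ⟨t, ht, rfl⟩
    exact h1 ht
  have h4 : ¬ (Set.Ioc (-Real.pi) Real.pi).Countable :=
    Cardinal.Real.Ioc_countable_iff.not.2 (by
      have := Real.pi_pos
      linarith)
  exact h4 h3

theorem result : IsLeast
    {k : ℕ | 1 ≤ k ∧ ∃ (x : Fin k → ℂ) (θ : Fin k → ℝ), IsDenseForest (TBG k x θ)} 2 := by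
  constructor
  · refine ⟨by norm_num, ?_⟩
    obtain ⟨t, ht⟩ := exists_angle
    refine ⟨fun _ => 0, ![t, 0], ?_⟩
    rw [forest_iff, tbg_eq]
    refine R332.Forest.forest_of_two (Complex.exp (t * Complex.I)) 1 0 0
      (Complex.norm_exp_ofReal_mul_I _) norm_one (by rwa [div_one]) _ ?_ ?_
    · refine Set.Subset.trans ?_ (Set.subset_iUnion _ (0 : Fin 2))
      simp
    · refine Set.Subset.trans ?_ (Set.subset_iUnion _ (1 : Fin 2))
      simp
  · rintro k ⟨hk, x, θ, h⟩
    by_contra hlt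
    have hk1 : k = 1 := by omega
    subst hk1
    rw [forest_iff, tbg_eq] at h
    refine R332.Forest.not_forest (Complex.exp (θ 0 * Complex.I))
      (Complex.norm_exp_ofReal_mul_I _) (fun j => Complex.exp (θ j * Complex.I)) x 1 one_pos
      (fun i => ⟨1, R332.Forest.one_mem, ?_⟩) h
    have : i = 0 := Subsingleton.elim _ _
    subst this
    simp

end Pool.Agent.Results.MP_b83ca4_nt.SmallestNumber
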